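import Pool.Agent.Q284.EulM.Par

/-!
# A double counting lemma for pair recursions
-/

namespace Pool.Agent.Q284.EulM

open Finset

variable {V : Type*} [DecidableEq V]

theorem sdiff4 (W : Finset V) (a b v u : V) : (W \ {a, b}) \ {v, u} = (W \ {v, u}) \ {a, b} :=
  sdiff_right_comm _ _ _

theorem split_sum {W : Finset V} {v : V} (hv : v ∈ W) (T : V → V → ℤ)
    (hT : ∀ a b, T a b = T b a) :
    ∑ a ∈ W, ∑ b ∈ W.erase a, T a b = 2 * ∑ u ∈ W.erase v, T v u +
      ∑ a ∈ W.erase v, ∑ b ∈ (W.erase v).erase a, T a b := by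
  rw [← Finset.add_sum_erase W _ hv]
  have h1 : ∑ a ∈ W.erase v, ∑ b ∈ W.erase a, T a b =
      ∑ a ∈ W.erase v, (T v a + ∑ b ∈ (W.erase v).erase a, T a b) := by
    apply Finset.sum_congr rfl
    intro a ha
    rw [mem_erase] at ha
    have hva : v ∈ W.erase a := mem_erase.2 ⟨ha.1.symm, hv⟩
    rw [← Finset.add_sum_erase (W.erase a) _ hva, hT a v, Finset.erase_right_comm]
  rw [h1, Finset.sum_add_distrib]
  ring

theorem sum3_comm (U : Finset V) (F : V → V → V → ℤ) :
    ∑ a ∈ U, ∑ b ∈ U.erase a, ∑ u ∈ (U.erase a).erase b, F a b u =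
      ∑ u ∈ U, ∑ a ∈ U.erase u, ∑ b ∈ (U.erase u).erase a, F a b u := by
  have h1 : ∀ a ∈ U, ∑ b ∈ U.erase a, ∑ u ∈ (U.erase a).erase b, F a b u =
      ∑ u ∈ U.erase a, ∑ b ∈ (U.erase a).erase u, F a b u := by
    intro a _
    rw [sum_erase_comm (U.erase a) (fun b u => F a b u)]
  rw [Finset.sum_congr rfl h1]
  rw [Finset.sum_comm' (t' := U) (s' := fun u => U.erase u)]
  · apply Finset.sum_congr rfl
    intro u _
    apply Finset.sum_congr rfl
    intro a _
    rw [Finset.erase_right_comm]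
  · intro a b
    simp only [mem_erase]
    constructor
    · rintro ⟨h1, h2, h3⟩; exact ⟨⟨Ne.symm h2, h1⟩, h3⟩
    · rintro ⟨⟨h1, h2⟩, h3⟩; exact ⟨h2, Ne.symm h1, h3⟩

/-- Double counting. -/
theorem double_count (s : Finset V → ℤ) (q : Finset V → V → V → ℤ)
    (hrec : ∀ W : Finset V, 2 ≤ W.card →
      s W = ∑ a ∈ W, ∑ b ∈ W.erase a, q W a b * s (W \ {a, b}))
    (hsymm : ∀ W a b, q W a b = q W b a)
    (hcomm : ∀ (W : Finset V) (a b v u : V), a ∈ W → b ∈ W → v ∈ W → u ∈ W → a ≠ b → a ≠ v →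
      a ≠ u → b ≠ v → b ≠ u → v ≠ u →
      q W a b * q (W \ {a, b}) v u = q W v u * q (W \ {v, u}) a b) (m : ℕ) :
    ∀ W : Finset V, W.card = 2 * (m + 1) → ∀ v ∈ W,
      s W = (m + 1) * (2 * ∑ u ∈ W.erase v, q W v u * s (W \ {v, u})) := by
  induction m with
  | zero =>
    intro W hW v hv
    rw [hrec W (by omega), split_sum hv (fun a b => q W a b * s (W \ {a, b}))
      (fun a b => by rw [hsymm, Finset.pair_comm])]
    have h1 : ∑ a ∈ W.erase v, ∑ b ∈ (W.erase v).erase a, q W a b * s (W \ {a, b}) = 0 := by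
      apply Finset.sum_eq_zero
      intro a ha
      have : ((W.erase v).erase a).card = 0 := by
        rw [card_erase_of_mem ha, card_erase_of_mem hv, hW]
      rw [card_eq_zero] at this
      rw [this, sum_empty]
    rw [h1]
    simp
  | succ m ih =>
    intro W hW v hv
    rw [hrec W (by omega), split_sum hv (fun a b => q W a b * s (W \ {a, b}))
      (fun a b => by rw [hsymm, Finset.pair_comm])]
    have h1 : ∑ a ∈ W.erase v, ∑ b ∈ (W.erase v).erase a, q W a b * s (W \ {a, b}) =
        ∑ a ∈ W.erase v, ∑ b ∈ (W.erase v).erase a, ∑ u ∈ ((W.erase v).erase a).erase b,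
          (2 * (m + 1) : ℤ) * (q W v u * q (W \ {v, u}) a b * s ((W \ {v, u}) \ {a, b})) := by
      apply Finset.sum_congr rfl
      intro a ha
      apply Finset.sum_congr rfl
      intro b hb
      rw [mem_erase] at ha
      rw [mem_erase, mem_erase] at hb
      have hcard : (W \ {a, b}).card = 2 * (m + 1) := by
        rw [sdiff_pair, card_erase_of_mem (mem_erase.2 ⟨hb.1, hb.2.2⟩),
          card_erase_of_mem ha.2, hW]
        omega
      have hv' : v ∈ W \ {a, b} := by
        rw [sdiff_pair, mem_erase, mem_erase]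
        exact ⟨hb.2.1.symm, ha.1.symm, hv⟩
      rw [ih _ hcard v hv', Finset.mul_sum, Finset.mul_sum, Finset.mul_sum]
      have hset : (W \ {a, b}).erase v = ((W.erase v).erase a).erase b := by
        rw [sdiff_pair]
        ext x
        simp only [mem_erase]
        tauto
      rw [hset]
      apply Finset.sum_congr rfl
      intro u hu
      rw [mem_erase, mem_erase, mem_erase] at hu
      have := hcomm W a b v u ha.2 hb.2.2 hv hu.2.2.2 (Ne.symm hb.1) ha.1 (Ne.symm hu.2.1)
        hb.2.1 (Ne.symm hu.1) (Ne.symm hu.2.2.1)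
      rw [sdiff4 W v u a b, ← this]
      ring
    rw [h1, sum3_comm]
    have h2 : ∑ u ∈ W.erase v, ∑ a ∈ (W.erase v).erase u, ∑ b ∈ ((W.erase v).erase u).erase a,
          (2 * (m + 1) : ℤ) * (q W v u * q (W \ {v, u}) a b * s ((W \ {v, u}) \ {a, b})) =
        ∑ u ∈ W.erase v, (2 * (m + 1) : ℤ) * (q W v u * s (W \ {v, u})) := by
      apply Finset.sum_congr rfl
      intro u hu
      rw [mem_erase] at hu
      have hcard : 2 ≤ (W \ {v, u}).card := by
        rw [sdiff_pair, card_erase_of_mem (mem_erase.2 hu), card_erase_of_mem hv, hW]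
        omega
      rw [hrec _ hcard, Finset.mul_sum, Finset.mul_sum, sdiff_pair]
      apply Finset.sum_congr rfl
      intro a _
      rw [Finset.mul_sum, Finset.mul_sum]
      apply Finset.sum_congr rfl
      intro b _
      ring
    rw [h2, ← Finset.mul_sum]
    push_cast
    ring

theorem int_odd_sum (U : Finset V) (f : V → ℤ) :
    Odd (∑ u ∈ U, f u) ↔ Odd (U.filter (fun u => Odd (f u))).card := by
  classical
  induction U using Finset.induction_on with
  | empty => simp
  | insert a U ha ih =>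
    rw [Finset.sum_insert ha, Finset.filter_insert]
    by_cases h : Odd (f a)
    · rw [if_pos h, card_insert_of_notMem (by simp [ha]), Nat.odd_add_one, ← ih, Int.odd_add]
      simp [h]
    · rw [if_neg h, ← ih, Int.odd_add]
      simp only [h, false_iff, Int.not_even_iff_odd]

end Pool.Agent.Q284.EulM
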