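import Pool.Agent.Q284.EulM.Dc

/-!
# The multiplicity of `-1` for orientations of complete multipartite graphs
-/

namespace Pool.Agent.Q284.EulM

open Finset Polynomial

variable {V : Type*} [Fintype V] [DecidableEq V] {ι : Type*} [Fintype ι] [DecidableEq ι]

/-- orientation of the complete multipartite graph with part function `c` -/
def IsOr (c : V → ι) (D : V → V → Prop) : Prop :=
  (∀ u v, c u = c v → ¬ D u v) ∧
    ∀ u v, c u ≠ c v → (D u v ∧ ¬ D v u) ∨ (D v u ∧ ¬ D u v)

variable {c : V → ι} {D : V → V → Prop}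

omit [Fintype V] [DecidableEq V] [Fintype ι] [DecidableEq ι] in
theorem w_same (h : IsOr c D) {R : Type*} [CommRing R] (t : R) {a b : V} (hab : c a = c b) :
    w D t a b = 1 := by
  unfold w
  rw [if_neg (h.1 b a hab.symm)]

omit [Fintype V] [DecidableEq V] [Fintype ι] [DecidableEq ι] in
theorem w_sum (h : IsOr c D) {R : Type*} [CommRing R] (t : R) {a b : V} (hab : c a ≠ c b) :
    w D t a b + w D t b a = 1 + t := by
  unfold w
  rcases h.2 a b hab with ⟨h1, h2⟩ | ⟨h1, h2⟩
  · rw [if_neg h2, if_pos h1]
  · rw [if_pos h1, if_neg h2]; ring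

omit [Fintype V] [DecidableEq V] [Fintype ι] [DecidableEq ι] in
theorem w_neg (h : IsOr c D) {a b : V} (hab : c a ≠ c b) :
    w D (-1 : ℤ) a b = - w D (-1 : ℤ) b a := by
  have := w_sum h (-1 : ℤ) hab
  linarith

omit [Fintype V] [DecidableEq V] in
theorem w_odd (D : V → V → Prop) (a b : V) : w D (-1 : ℤ) a b = 1 ∨ w D (-1 : ℤ) a b = -1 := by
  unfold w
  split_ifs <;> simp

/-- the polynomial of `W` in the variable `1 + t` -/
noncomputable def E (D : V → V → Prop) (W : Finset V) : ℤ[X] := EA D (X - 1) W.card W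

theorem E_dvd (h : IsOr c D) (W : Finset V) : X ^ (rr c W / 2) ∣ E D W := by
  obtain ⟨n, hn⟩ : ∃ n, W.card = n := ⟨_, rfl⟩
  induction n using Nat.strong_induction_on generalizing W with
  | _ n ih =>
    match n, hn with
    | 0, hn =>
      rw [card_eq_zero] at hn
      subst hn
      rw [rr_empty]
      simp
    | 1, hn =>
      obtain ⟨a, rfl⟩ := card_eq_one.1 hn
      have h1 := rr_erase (c := c) (W := {a}) (mem_singleton_self a)
      have h2 : ({a} : Finset V).erase a = ∅ := by simp
      rw [h2, rr_empty] at h1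
      have : rr c {a} / 2 = 0 := by
        by_cases hp : P c {a} (c a)
        · have := h1.1 hp; omega
        · have := h1.2 hp; omega
      rw [this]
      simp
    | n + 2, hn =>
      have key : X ^ (rr c W / 2) ∣ 2 * E D W := by
        unfold E
        rw [hn, EA_succ2' D _ hn]
        apply Finset.dvd_sum
        intro a ha
        apply Finset.dvd_sum
        intro b hb
        have hb2 := hb
        rw [mem_erase] at hb
        have hcard : (W \ {a, b}).card = n := by
          rw [sdiff_pair, card_erase_of_mem hb2, card_erase_of_mem ha, hn]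
          omega
        have h3 := ih n (by omega) (W \ {a, b}) hcard
        unfold E at h3
        rw [hcard, sdiff_pair] at h3
        have h4 := rho_le (c := c) ha hb.2 (Ne.symm hb.1)
        rw [sdiff_pair] at h4
        by_cases hab : c a = c b
        · unfold cost at h4
          rw [if_pos hab, zero_add] at h4
          exact Dvd.dvd.mul_left ((pow_dvd_pow _ h4).trans h3) _
        · unfold cost at h4
          rw [if_neg hab] at h4
          rw [w_sum h _ hab, show (1 : ℤ[X]) + (X - 1) = X by ring]
          refine (pow_dvd_pow X h4).trans ?_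
          rw [pow_add, pow_one, mul_assoc]
          exact mul_dvd_mul_left _ (Dvd.dvd.mul_left h3 _)
      rw [X_pow_dvd_iff] at key ⊢
      intro d hd
      have := key d hd
      rw [two_mul, coeff_add] at this
      omega

/-- the cofactor -/
noncomputable def BB (h : IsOr c D) (W : Finset V) : ℤ[X] := (E_dvd h W).choose

theorem E_eq (h : IsOr c D) (W : Finset V) : E D W = X ^ (rr c W / 2) * BB h W :=
  (E_dvd h W).choose_spec

/-- normalised leading value -/
noncomputable def sv (h : IsOr c D) (W : Finset V) : ℤ :=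
  2 ^ (rr c W / 2) * (BB h W).eval 0

/-- signs of pairs -/
noncomputable def kap (D : V → V → Prop) (W : Finset V) (a b : V) : ℤ :=
  ∏ x ∈ W, w D (-1 : ℤ) a x * w D (-1 : ℤ) b x

/-- coefficients of the pair recursion -/
noncomputable def qq (c : V → ι) (D : V → V → Prop) (W : Finset V) (a b : V) : ℤ :=
  if rr c W / 2 = cost c a b + rr c (W \ {a, b}) / 2 then kap D (W \ {a, b}) a b else 0

omit [Fintype V] [DecidableEq V] in
theorem w_eval (D : V → V → Prop) (a b : V) :
    (w D (X - 1 : ℤ[X]) a b).eval 0 = w D (-1 : ℤ) a b := by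
  unfold w
  split_ifs <;> simp

omit [Fintype V] in
theorem prod_w_eval (D : V → V → Prop) (W : Finset V) (a b : V) :
    (∏ x ∈ W, w D (X - 1 : ℤ[X]) a x * w D (X - 1 : ℤ[X]) b x).eval 0 = kap D W a b := by
  unfold kap
  rw [eval_prod]
  apply Finset.prod_congr rfl
  intro x _
  rw [eval_mul, w_eval, w_eval]

theorem sv_rec (h : IsOr c D) (W : Finset V) (hW : 2 ≤ W.card) :
    sv h W = ∑ a ∈ W, ∑ b ∈ W.erase a, qq c D W a b * sv h (W \ {a, b}) := by
  obtain ⟨n, hn⟩ : ∃ n, W.card = n + 2 := ⟨W.card - 2, by omega⟩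
  -- cofactor identity
  have h1 : (2 : ℤ[X]) * BB h W = ∑ a ∈ W, ∑ b ∈ W.erase a,
      (if c a = c b then 2 else 1) *
      (∏ x ∈ W \ {a, b}, w D (X - 1) a x * w D (X - 1) b x) *
      X ^ (cost c a b + rr c (W \ {a, b}) / 2 - rr c W / 2) * BB h (W \ {a, b}) := by
    have h2 : (X : ℤ[X]) ^ (rr c W / 2) * (2 * BB h W) = X ^ (rr c W / 2) *
        (∑ a ∈ W, ∑ b ∈ W.erase a,
        (if c a = c b then 2 else 1) *
        (∏ x ∈ W \ {a, b}, w D (X - 1) a x * w D (X - 1) b x) *
        X ^ (cost c a b + rr c (W \ {a, b}) / 2 - rr c W / 2) * BB h (W \ {a, b})) := by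
      have h3 : (X : ℤ[X]) ^ (rr c W / 2) * (2 * BB h W) = 2 * E D W := by
        rw [E_eq h W]; ring
      rw [h3]
      unfold E
      rw [hn, EA_succ2' D _ hn, Finset.mul_sum]
      apply Finset.sum_congr rfl
      intro a ha
      rw [Finset.mul_sum]
      apply Finset.sum_congr rfl
      intro b hb
      have hb2 := hb
      rw [mem_erase] at hb
      have hcard : (W \ {a, b}).card = n := by
        rw [sdiff_pair, card_erase_of_mem hb2, card_erase_of_mem ha, hn]
        omega
      have h4 := rho_le (c := c) ha hb.2 (Ne.symm hb.1)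
      rw [← sdiff_pair]
      have h5 : EA D (X - 1 : ℤ[X]) n (W \ {a, b}) = E D (W \ {a, b}) := by
        unfold E; rw [hcard]
      rw [h5, E_eq h (W \ {a, b})]
      have h6 : w D (X - 1 : ℤ[X]) a b + w D (X - 1) b a =
          (if c a = c b then 2 else 1) * X ^ cost c a b := by
        unfold cost
        split_ifs with hab
        · rw [w_same h _ hab, w_same h _ hab.symm]; ring
        · rw [w_sum h _ hab]; ring
      rw [h6]
      have h7 : (X : ℤ[X]) ^ cost c a b * X ^ (rr c (W \ {a, b}) / 2) =
          X ^ (rr c W / 2) * X ^ (cost c a b + rr c (W \ {a, b}) / 2 - rr c W / 2) := by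
        rw [← pow_add, ← pow_add]
        congr 1
        omega
      calc _ = (if c a = c b then 2 else 1) *
          (∏ x ∈ W \ {a, b}, w D (X - 1) a x * w D (X - 1) b x) *
          (X ^ cost c a b * X ^ (rr c (W \ {a, b}) / 2)) * BB h (W \ {a, b}) := by ring
        _ = _ := by rw [h7]; ring
    exact mul_left_cancel₀ (pow_ne_zero _ X_ne_zero) h2
  have h2 := congrArg (fun p => (2 : ℤ) ^ (rr c W / 2) * Polynomial.eval 0 p) h1
  simp only [eval_mul, eval_finset_sum, Finset.mul_sum, prod_w_eval] at h2
  have h3 : (2 : ℤ) * sv h W = 2 * ∑ a ∈ W, ∑ b ∈ W.erase a,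
      qq c D W a b * sv h (W \ {a, b}) := by
    unfold sv
    calc (2 : ℤ) * (2 ^ (rr c W / 2) * (BB h W).eval 0)
        = 2 ^ (rr c W / 2) * (eval 0 2 * eval 0 (BB h W)) := by
          rw [show (2 : ℤ[X]) = C 2 from rfl, eval_C]; ring
      _ = _ := by
        rw [h2, Finset.mul_sum]
        apply Finset.sum_congr rfl
        intro a ha
        rw [Finset.mul_sum]
        apply Finset.sum_congr rfl
        intro b hb
        rw [mem_erase] at hb
        have h4 := rho_le (c := c) ha hb.2 (Ne.symm hb.1)
        unfold qq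
        by_cases hopt : rr c W / 2 = cost c a b + rr c (W \ {a, b}) / 2
        · rw [if_pos hopt, show cost c a b + rr c (W \ {a, b}) / 2 - rr c W / 2 = 0 by omega,
            pow_zero, eval_one, hopt, pow_add]
          unfold cost
          split_ifs with hab
          · rw [show (2 : ℤ[X]) = C 2 from rfl, eval_C]; ring
          · rw [eval_one]; ring
        · rw [if_neg hopt]
          have h5 : ((X : ℤ[X]) ^ (cost c a b + rr c (W \ {a, b}) / 2 - rr c W / 2)).eval 0 = 0 := by
            rw [eval_pow, eval_X, zero_pow (by omega)]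
          rw [h5]
          ring
  linarith

theorem qq_symm (W : Finset V) (a b : V) : qq c D W a b = qq c D W b a := by
  unfold qq kap
  rw [cost_comm, Finset.pair_comm]
  split_ifs
  · apply Finset.prod_congr rfl
    intro x _
    ring
  · rfl

theorem kap_split (W : Finset V) {a b v u : V} (hv : v ∈ W) (hu : u ∈ W) (huv : v ≠ u) :
    kap D W a b = (w D (-1 : ℤ) a v * w D (-1 : ℤ) b v) * (w D (-1 : ℤ) a u * w D (-1 : ℤ) b u) *
      kap D (W \ {v, u}) a b := by
  unfold kap
  rw [sdiff_pair, ← Finset.mul_prod_erase W _ hv,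
    ← Finset.mul_prod_erase (W.erase v) _ (mem_erase.2 ⟨huv.symm, hu⟩)]
  ring

theorem qq_comm (h : IsOr c D) (W : Finset V) (a b v u : V) (ha : a ∈ W) (hb : b ∈ W)
    (hv : v ∈ W) (hu : u ∈ W) (hab : a ≠ b) (hav : a ≠ v) (hau : a ≠ u) (hbv : b ≠ v)
    (hbu : b ≠ u) (hvu : v ≠ u) :
    qq c D W a b * qq c D (W \ {a, b}) v u = qq c D W v u * qq c D (W \ {v, u}) a b := by
  have ha' : a ∈ W \ {v, u} := by
    rw [mem_sdiff, mem_insert, mem_singleton]; tauto
  have hb' : b ∈ W \ {v, u} := by
    rw [mem_sdiff, mem_insert, mem_singleton]; tauto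
  have hv' : v ∈ W \ {a, b} := by
    rw [mem_sdiff, mem_insert, mem_singleton]
    refine ⟨hv, ?_⟩
    rintro (h1 | h1)
    · exact hav h1.symm
    · exact hbv h1.symm
  have hu' : u ∈ W \ {a, b} := by
    rw [mem_sdiff, mem_insert, mem_singleton]
    refine ⟨hu, ?_⟩
    rintro (h1 | h1)
    · exact hau h1.symm
    · exact hbu h1.symm
  have e1 := rho_le (c := c) ha hb hab
  have e2 := rho_le (c := c) hv' hu' hvu
  have e3 := rho_le (c := c) hv hu hvu
  have e4 := rho_le (c := c) ha' hb' hab
  rw [sdiff4 W v u a b] at e4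
  unfold qq
  rw [sdiff4 W v u a b]
  by_cases hc : rr c W / 2 = cost c a b + cost c v u + rr c ((W \ {a, b}) \ {v, u}) / 2
  · rw [if_pos (by omega), if_pos (by omega), if_pos (by omega), if_pos (by omega)]
    rw [kap_split (W \ {a, b}) hv' hu' hvu, kap_split (W \ {v, u}) ha' hb' hab,
      sdiff4 W v u a b]
    have o1 := (opt_iff (c := c) ha hb hab).1 (by omega)
    have o2 := (opt_iff (c := c) hv' hu' hvu).1 (by omega)
    have key : (w D (-1 : ℤ) a v * w D (-1 : ℤ) b v) * (w D (-1 : ℤ) a u * w D (-1 : ℤ) b u) =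
        (w D (-1 : ℤ) v a * w D (-1 : ℤ) u a) * (w D (-1 : ℤ) v b * w D (-1 : ℤ) u b) := by
      by_cases hcab : c a = c b
      · -- same part a b
        have g : ∀ x, w D (-1 : ℤ) a x * w D (-1 : ℤ) b x = w D (-1 : ℤ) x a * w D (-1 : ℤ) x b := by
          intro x
          by_cases hx : c a = c x
          · rw [w_same h _ hx, w_same h _ (hcab.symm.trans hx), w_same h _ hx.symm,
              w_same h _ (hcab.symm.trans hx).symm]
          · rw [w_neg h hx, w_neg h (a := b) (b := x) (by rw [← hcab]; exact hx)]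
            ring
        rw [g v, g u]
        ring
      · by_cases hcvu : c v = c u
        · have g : ∀ x, w D (-1 : ℤ) x v * w D (-1 : ℤ) x u =
              w D (-1 : ℤ) v x * w D (-1 : ℤ) u x := by
            intro x
            by_cases hx : c x = c v
            · rw [w_same h _ hx, w_same h _ (hx.trans hcvu), w_same h _ hx.symm,
                w_same h _ (hx.trans hcvu).symm]
            · rw [w_neg h hx, w_neg h (a := x) (b := u) (by rw [← hcvu]; exact hx)]
              ring
          rw [← g a, ← g b]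
          ring
        · have o1' := o1.resolve_left hcab
          have o2' := o2.resolve_left hcvu
          rw [P_pair ha hb hab, P_pair ha hb hab, if_neg hcab, if_neg hcab] at o2'
          have n1 : ¬ (c v = c a ∨ c v = c b) := by
            intro hh
            rw [if_pos hh] at o2'
            rcases hh with hh | hh
            · rw [hh] at o2'; exact o2'.1 o1'.1
            · rw [hh] at o2'; exact o2'.1 o1'.2
          have n2 : ¬ (c u = c a ∨ c u = c b) := by
            intro hh
            rw [if_pos hh] at o2'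
            rcases hh with hh | hh
            · rw [hh] at o2'; exact o2'.2 o1'.1
            · rw [hh] at o2'; exact o2'.2 o1'.2
          push Not at n1 n2
          rw [w_neg h (Ne.symm n1.1), w_neg h (Ne.symm n1.2), w_neg h (Ne.symm n2.1),
            w_neg h (Ne.symm n2.2)]
          ring
    rw [key]
    ring
  · have z1 : (if rr c W / 2 = cost c a b + rr c (W \ {a, b}) / 2 then
        kap D (W \ {a, b}) a b else 0) *
        (if rr c (W \ {a, b}) / 2 = cost c v u + rr c ((W \ {a, b}) \ {v, u}) / 2 then
        kap D ((W \ {a, b}) \ {v, u}) v u else 0) = 0 := by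
      by_cases h1 : rr c W / 2 = cost c a b + rr c (W \ {a, b}) / 2
      · rw [if_neg (show ¬ (rr c (W \ {a, b}) / 2 =
          cost c v u + rr c ((W \ {a, b}) \ {v, u}) / 2) by omega), mul_zero]
      · rw [if_neg h1, zero_mul]
    have z2 : (if rr c W / 2 = cost c v u + rr c (W \ {v, u}) / 2 then
        kap D (W \ {v, u}) v u else 0) *
        (if rr c (W \ {v, u}) / 2 = cost c a b + rr c ((W \ {a, b}) \ {v, u}) / 2 then
        kap D ((W \ {a, b}) \ {v, u}) a b else 0) = 0 := by
      by_cases h1 : rr c W / 2 = cost c v u + rr c (W \ {v, u}) / 2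
      · rw [if_neg (show ¬ (rr c (W \ {v, u}) / 2 =
          cost c a b + rr c ((W \ {a, b}) \ {v, u}) / 2) by omega), mul_zero]
      · rw [if_neg h1, zero_mul]
    rw [z1, z2]

theorem kap_odd (W : Finset V) (a b : V) : Odd (kap D W a b) := by
  unfold kap
  refine Finset.prod_induction _ (fun z : ℤ => Odd z) (fun _ _ => Odd.mul) odd_one ?_
  intro x _
  rcases w_odd D a x with h | h <;> rcases w_odd D b x with h' | h' <;> rw [h, h'] <;> decide

/-- even number of vertices -/
theorem sv_even (h : IsOr c D) (m : ℕ) : ∀ W : Finset V, W.card = 2 * m →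
    ∃ z : ℤ, Odd z ∧ sv h W = 2 ^ m * (m.factorial : ℤ) * z := by
  induction m with
  | zero =>
    intro W hW
    have hW0 : W = ∅ := by
      rw [← card_eq_zero]; omega
    subst hW0
    refine ⟨1, odd_one, ?_⟩
    have h1 := E_eq h (∅ : Finset V)
    unfold E at h1
    rw [card_empty, EA_zero, rr_empty] at h1
    have h2 : BB h (∅ : Finset V) = 1 := by
      rw [h1]; simp
    unfold sv
    rw [h2, rr_empty]
    simp
  | succ m ih =>
    intro W hW
    obtain ⟨v, hv⟩ : W.Nonempty := by
      rw [← card_pos]; omega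
    have h1 := double_count (sv h) (qq c D) (sv_rec h) (qq_symm) (qq_comm h) m W hW v hv
    have h2 : ∀ u ∈ W.erase v, ∃ z : ℤ, Odd z ∧
        sv h (W \ {v, u}) = 2 ^ m * (m.factorial : ℤ) * z := by
      intro u hu
      apply ih
      rw [sdiff_pair, card_erase_of_mem hu, card_erase_of_mem hv, hW]
      omega
    choose! z hz using h2
    refine ⟨∑ u ∈ W.erase v, qq c D W v u * z u, ?_, ?_⟩
    · rw [int_odd_sum]
      have h3 : (W.erase v).filter (fun u => Odd (qq c D W v u * z u)) =
          (W.erase v).filter (fun u => rr c W / 2 = cost c v u + rr c (W \ {v, u}) / 2) := by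
        apply Finset.filter_congr
        intro u hu
        unfold qq
        by_cases hopt : rr c W / 2 = cost c v u + rr c (W \ {v, u}) / 2
        · rw [if_pos hopt]
          simp only [hopt, iff_true]
          exact (kap_odd _ _ _).mul (hz u hu).1
        · rw [if_neg hopt]
          simp [hopt]
      rw [h3]
      exact odd_opt (by rw [hW]; exact even_two_mul _) hv
    · rw [h1]
      have h3 : ∑ u ∈ W.erase v, qq c D W v u * sv h (W \ {v, u}) =
          2 ^ m * (m.factorial : ℤ) * ∑ u ∈ W.erase v, qq c D W v u * z u := by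
        rw [Finset.mul_sum]
        apply Finset.sum_congr rfl
        intro u hu
        rw [(hz u hu).2]
        ring
      rw [h3, Nat.factorial_succ]
      push_cast
      ring

/-- odd number of vertices: recursion -/
theorem sv_odd_rec (h : IsOr c D) (W : Finset V) (hW : Odd W.card) :
    sv h W = ∑ a ∈ W, (if P c W (c a) then ∏ x ∈ W.erase a, w D (-1 : ℤ) a x else 0) *
      sv h (W.erase a) := by
  obtain ⟨n, hn⟩ : ∃ n, W.card = n + 1 := by
    obtain ⟨k, hk⟩ := hW
    exact ⟨2 * k, hk⟩
  have hr : Odd (rr c W) := rr_parity.2 hW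
  have h1 : BB h W = ∑ a ∈ W, (∏ x ∈ W.erase a, w D (X - 1) a x) *
      X ^ (rr c (W.erase a) / 2 - rr c W / 2) * BB h (W.erase a) := by
    have h2 : (X : ℤ[X]) ^ (rr c W / 2) * BB h W = X ^ (rr c W / 2) *
        (∑ a ∈ W, (∏ x ∈ W.erase a, w D (X - 1) a x) *
        X ^ (rr c (W.erase a) / 2 - rr c W / 2) * BB h (W.erase a)) := by
      rw [← E_eq h W]
      unfold E
      rw [hn, EA_succ D _ hn, Finset.mul_sum]
      apply Finset.sum_congr rfl
      intro a ha
      have hcard : (W.erase a).card = n := by
        rw [card_erase_of_mem ha, hn]; rfl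
      have h5 : EA D (X - 1 : ℤ[X]) n (W.erase a) = E D (W.erase a) := by
        unfold E; rw [hcard]
      rw [h5, E_eq h (W.erase a)]
      have h6 := rr_erase (c := c) ha
      obtain ⟨k, hk⟩ := hr
      have h7 : (X : ℤ[X]) ^ (rr c (W.erase a) / 2) =
          X ^ (rr c W / 2) * X ^ (rr c (W.erase a) / 2 - rr c W / 2) := by
        rw [← pow_add]
        congr 1
        by_cases hp : P c W (c a)
        · have := h6.1 hp; omega
        · have := h6.2 hp; omega
      rw [h7]
      ring
    exact mul_left_cancel₀ (pow_ne_zero _ X_ne_zero) h2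
  have h2 := congrArg (fun p => (2 : ℤ) ^ (rr c W / 2) * Polynomial.eval 0 p) h1
  simp only [eval_mul, eval_finset_sum, Finset.mul_sum, eval_prod, w_eval] at h2
  unfold sv
  rw [h2]
  apply Finset.sum_congr rfl
  intro a ha
  have h6 := rr_erase (c := c) ha
  obtain ⟨k, hk⟩ := hr
  by_cases hp : P c W (c a)
  · have h7 := h6.1 hp
    have h8 : rr c (W.erase a) / 2 = rr c W / 2 := by omega
    rw [if_pos hp, h8, Nat.sub_self, pow_zero, eval_one]
    ring
  · have h7 := h6.2 hp
    rw [if_neg hp, show rr c (W.erase a) / 2 - rr c W / 2 = 0 + 1 by omega, pow_succ, eval_mul,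
      eval_X]
    ring

theorem sv_ne_zero (h : IsOr c D) (W : Finset V) : sv h W ≠ 0 := by
  have hpos : ∀ m : ℕ, (2 : ℤ) ^ m * (m.factorial : ℤ) ≠ 0 := by
    intro m
    have := Nat.factorial_pos m
    positivity
  rcases Nat.even_or_odd' W.card with ⟨m, hm | hm⟩
  · obtain ⟨z, hz, hs⟩ := sv_even h m W hm
    rw [hs]
    apply mul_ne_zero (hpos m)
    rintro rfl
    simp at hz
  · rw [sv_odd_rec h W ⟨m, hm⟩]
    have h2 : ∀ a ∈ W, ∃ z : ℤ, Odd z ∧
        sv h (W.erase a) = 2 ^ m * (m.factorial : ℤ) * z := by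
      intro a ha
      apply sv_even
      rw [card_erase_of_mem ha, hm]
      omega
    choose! z hz using h2
    have h3 : ∑ a ∈ W, (if P c W (c a) then ∏ x ∈ W.erase a, w D (-1 : ℤ) a x else 0) *
        sv h (W.erase a) = 2 ^ m * (m.factorial : ℤ) *
        ∑ a ∈ W, (if P c W (c a) then ∏ x ∈ W.erase a, w D (-1 : ℤ) a x else 0) * z a := by
      rw [Finset.mul_sum]
      apply Finset.sum_congr rfl
      intro a ha
      rw [(hz a ha).2]
      ring
    rw [h3]
    apply mul_ne_zero (hpos m)
    intro h0
    have h4 : Odd (∑ a ∈ W,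
        (if P c W (c a) then ∏ x ∈ W.erase a, w D (-1 : ℤ) a x else 0) * z a) := by
      rw [int_odd_sum]
      have h5 : W.filter (fun a => Odd
          ((if P c W (c a) then ∏ x ∈ W.erase a, w D (-1 : ℤ) a x else 0) * z a)) =
          W.filter (fun a => P c W (c a)) := by
        apply Finset.filter_congr
        intro a ha
        by_cases hp : P c W (c a)
        · rw [if_pos hp]
          simp only [hp, iff_true]
          refine Odd.mul ?_ (hz a ha).1
          refine Finset.prod_induction _ (fun z : ℤ => Odd z) (fun _ _ => Odd.mul) odd_one ?_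
          intro x _
          rcases w_odd D a x with h | h <;> rw [h] <;> decide
        · rw [if_neg hp]
          simp [hp]
      rw [h5, odd_vert]
      exact ⟨m, hm⟩
    rw [h0] at h4
    simp at h4

theorem E_mult (h : IsOr c D) (W : Finset V) :
    (E D W).natTrailingDegree = rr c W / 2 := by
  have h1 : (BB h W).eval 0 ≠ 0 := by
    intro h0
    apply sv_ne_zero h W
    unfold sv
    rw [h0, mul_zero]
  have h2 : BB h W ≠ 0 := by
    rintro h0
    rw [h0] at h1
    simp at h1
  rw [E_eq h W, mul_comm, natTrailingDegree_mul_X_pow h2]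
  have h3 : (BB h W).natTrailingDegree = 0 := by
    apply Nat.le_zero.1
    apply natTrailingDegree_le_of_ne_zero
    rwa [coeff_zero_eq_eval_zero]
  omega

/-- multiplicity at `-1` of the polynomial in the variable `t` -/
theorem mult_eq (h : IsOr c D) :
    (EA D (X : ℤ[X]) (Fintype.card V) univ).rootMultiplicity (-1) = rr c (univ : Finset V) / 2 := by
  rw [rootMultiplicity_eq_natTrailingDegree]
  have h1 : (EA D (X : ℤ[X]) (Fintype.card V) univ).comp (X + C (-1)) = E D univ := by
    have := map_EA D (X : ℤ[X]) (compRingHom (X + C (-1 : ℤ))) (Fintype.card V) univ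
    rw [coe_compRingHom_apply, coe_compRingHom_apply, X_comp] at this
    rw [this]
    unfold E
    rw [show (X : ℤ[X]) + C (-1) = X - 1 by simp [sub_eq_add_neg], Finset.card_univ]
  rw [h1, E_mult h]

end Pool.Agent.Q284.EulM
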