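import Pool.Agent.Q284.EulM.Rec

/-!
# Parities of parts
-/

namespace Pool.Agent.Q284.EulM

open Finset

variable {V : Type*} [DecidableEq V] {ι : Type*} [Fintype ι] [DecidableEq ι]

/-- part `i` meets `W` in an odd number of vertices -/
def P (c : V → ι) (W : Finset V) (i : ι) : Prop := Odd (W.filter (fun v => c v = i)).card

instance (c : V → ι) (W : Finset V) (i : ι) : Decidable (P c W i) := by
  unfold P; infer_instance

/-- number of odd parts -/
def rr (c : V → ι) (W : Finset V) : ℕ := (univ.filter (fun i => P c W i)).card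

variable {c : V → ι} {W : Finset V} {a b u v : V}

omit [Fintype ι] in
theorem P_erase (ha : a ∈ W) (i : ι) :
    P c (W.erase a) i ↔ if i = c a then ¬ P c W i else P c W i := by
  unfold P
  rw [Finset.filter_erase]
  split_ifs with h
  · subst h
    have hm : a ∈ W.filter (fun v => c v = c a) := by simp [ha]
    rw [card_erase_of_mem hm]
    have : 0 < (W.filter (fun v => c v = c a)).card := card_pos.2 ⟨a, hm⟩
    obtain ⟨k, hk⟩ : ∃ k, (W.filter (fun v => c v = c a)).card = k + 1 := ⟨_, (Nat.succ_pred_eq_of_pos this).symm⟩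
    rw [hk, Nat.add_sub_cancel, Nat.odd_add_one, not_not]
  · rw [erase_eq_of_notMem]
    rw [mem_filter]
    rintro ⟨_, h1⟩
    exact h h1.symm

theorem rr_erase (ha : a ∈ W) :
    (P c W (c a) → rr c (W.erase a) + 1 = rr c W) ∧
    (¬ P c W (c a) → rr c (W.erase a) = rr c W + 1) := by
  constructor
  · intro h
    unfold rr
    have : univ.filter (fun i => P c (W.erase a) i) =
        (univ.filter (fun i => P c W i)).erase (c a) := by
      ext i
      rw [mem_filter, mem_erase, mem_filter, P_erase ha]
      by_cases hi : i = c a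
      · subst hi; simp [h]
      · simp [hi]
    have hm : c a ∈ univ.filter (fun i => P c W i) := by simp [h]
    rw [this, card_erase_add_one hm]
  · intro h
    unfold rr
    have : univ.filter (fun i => P c (W.erase a) i) =
        insert (c a) (univ.filter (fun i => P c W i)) := by
      ext i
      rw [mem_filter, mem_insert, mem_filter, P_erase ha]
      by_cases hi : i = c a
      · subst hi; simp [h]
      · simp [hi]
    rw [this, card_insert_of_notMem (by simp [h])]

theorem rr_parity : Odd (rr c W) ↔ Odd W.card := by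
  have h1 : W.card = ∑ i, (W.filter (fun v => c v = i)).card :=
    card_eq_sum_card_fiberwise (fun x _ => mem_coe.2 (mem_univ (c x)))
  rw [h1, Finset.odd_sum_iff_odd_card_odd]
  rfl

theorem rr_empty : rr c ∅ = 0 := by
  unfold rr P
  simp

theorem odd_vert : Odd (W.filter (fun u => P c W (c u))).card ↔ Odd W.card := by
  have h1 : Even (W.filter (fun u => ¬ P c W (c u))).card := by
    have h2 : (W.filter (fun u => ¬ P c W (c u))).card =
        ∑ i, ((W.filter (fun u => ¬ P c W (c u))).filter (fun v => c v = i)).card :=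
      card_eq_sum_card_fiberwise (fun x _ => mem_coe.2 (mem_univ (c x)))
    rw [h2]
    apply Finset.even_sum
    intro i _
    by_cases hi : P c W i
    · have : (W.filter (fun u => ¬ P c W (c u))).filter (fun v => c v = i) = ∅ := by
        apply Finset.filter_eq_empty_iff.2
        intro x hx hxi
        rw [mem_filter] at hx
        rw [hxi] at hx
        exact hx.2 hi
      rw [this]
      simp
    · have : (W.filter (fun u => ¬ P c W (c u))).filter (fun v => c v = i) =
          W.filter (fun v => c v = i) := by
        ext x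
        rw [mem_filter, mem_filter, mem_filter]
        constructor
        · rintro ⟨⟨h1, _⟩, h2⟩
          exact ⟨h1, h2⟩
        · rintro ⟨h1, h2⟩
          exact ⟨⟨h1, by rw [h2]; exact hi⟩, h2⟩
      rw [this]
      unfold P at hi
      exact Nat.not_odd_iff_even.1 hi
  have h2 := Finset.card_filter_add_card_filter_not (s := W) (fun u => P c W (c u))
  rw [← h2]
  rw [Nat.odd_add]
  simp [h1]

/-- cost of a pair -/
def cost (c : V → ι) (a b : V) : ℕ := if c a = c b then 0 else 1

omit [DecidableEq V] [Fintype ι] in
theorem cost_comm (a b : V) : cost c a b = cost c b a := by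
  unfold cost
  simp only [eq_comm]

omit [Fintype ι] in
theorem sdiff_pair (a b : V) : W \ {a, b} = (W.erase a).erase b := by
  ext x
  simp only [mem_sdiff, mem_insert, mem_singleton, mem_erase]
  tauto

omit [Fintype ι] in
/-- parities after the removal of a pair -/
theorem P_pair (ha : a ∈ W) (hb : b ∈ W) (hab : a ≠ b) (i : ι) :
    P c (W \ {a, b}) i ↔ if c a = c b then P c W i else
      if i = c a ∨ i = c b then ¬ P c W i else P c W i := by
  rw [sdiff_pair, P_erase (mem_erase.2 ⟨hab.symm, hb⟩), P_erase ha]
  by_cases h1 : i = c a <;> by_cases h2 : i = c b <;> by_cases h3 : c a = c b <;>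
    simp_all

theorem rr_pair (ha : a ∈ W) (hb : b ∈ W) (hab : a ≠ b) :
    (c a = c b → rr c (W \ {a, b}) = rr c W) ∧
    (c a ≠ c b → P c W (c a) → P c W (c b) → rr c (W \ {a, b}) + 2 = rr c W) ∧
    (c a ≠ c b → ¬ (P c W (c a) ∧ P c W (c b)) → rr c W ≤ rr c (W \ {a, b})) := by
  have hb' : b ∈ W.erase a := mem_erase.2 ⟨hab.symm, hb⟩
  rw [sdiff_pair]
  have h1 := rr_erase (c := c) ha
  have h2 := rr_erase (c := c) hb'
  have h3 := P_erase (c := c) ha (c b)
  refine ⟨fun h => ?_, fun h hp hq => ?_, fun h hn => ?_⟩
  · rw [if_pos h.symm, ← h] at h3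
    rw [← h] at h2
    by_cases hp : P c W (c a)
    · have g1 := h1.1 hp
      have g2 := h2.2 (fun hh => (h3.1 hh) hp)
      omega
    · have g1 := h1.2 hp
      have g2 := h2.1 (h3.2 hp)
      omega
  · rw [if_neg (Ne.symm h)] at h3
    have g1 := h1.1 hp
    have g2 := h2.1 (h3.2 hq)
    omega
  · rw [if_neg (Ne.symm h)] at h3
    by_cases hp : P c W (c a)
    · by_cases hq : P c W (c b)
      · exact absurd ⟨hp, hq⟩ hn
      · have g1 := h1.1 hp
        have g2 := h2.2 (fun hh => hq (h3.1 hh))
        omega
    · by_cases hq : P c W (c b)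
      · have g1 := h1.2 hp
        have g2 := h2.1 (h3.2 hq)
        omega
      · have g1 := h1.2 hp
        have g2 := h2.2 (fun hh => hq (h3.1 hh))
        omega

theorem rho_le (ha : a ∈ W) (hb : b ∈ W) (hab : a ≠ b) :
    rr c W / 2 ≤ cost c a b + rr c (W \ {a, b}) / 2 := by
  obtain ⟨h1, h2, h3⟩ := rr_pair (c := c) ha hb hab
  unfold cost
  split_ifs with h
  · have := h1 h; omega
  · by_cases hp : P c W (c a) ∧ P c W (c b)
    · have := h2 h hp.1 hp.2; omega
    · have := h3 h hp; omega

theorem opt_iff (ha : a ∈ W) (hb : b ∈ W) (hab : a ≠ b) :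
    rr c W / 2 = cost c a b + rr c (W \ {a, b}) / 2 ↔
      c a = c b ∨ (P c W (c a) ∧ P c W (c b)) := by
  obtain ⟨h1, h2, h3⟩ := rr_pair (c := c) ha hb hab
  unfold cost
  split_ifs with h
  · have := h1 h
    simp [h, this]
  · by_cases hp : P c W (c a) ∧ P c W (c b)
    · have := h2 h hp.1 hp.2
      constructor
      · intro _; exact Or.inr hp
      · intro _; omega
    · have := h3 h hp
      constructor
      · intro h4; omega
      · rintro (h4 | h4)
        · exact absurd h4 h
        · exact absurd h4 hp

/-- number of optimal partners of `v` is odd when `|W|` is even -/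
theorem odd_opt (hW : Even W.card) (hv : v ∈ W) :
    Odd ((W.erase v).filter (fun u => rr c W / 2 = cost c v u + rr c (W \ {v, u}) / 2)).card := by
  have h0 : (W.erase v).filter (fun u => rr c W / 2 = cost c v u + rr c (W \ {v, u}) / 2) =
      (W.erase v).filter (fun u => c v = c u ∨ (P c W (c v) ∧ P c W (c u))) := by
    apply Finset.filter_congr
    intro u hu
    rw [mem_erase] at hu
    exact opt_iff hv hu.2 (Ne.symm hu.1)
  rw [h0]
  by_cases hp : P c W (c v)
  · have h1 : (W.erase v).filter (fun u => c v = c u ∨ (P c W (c v) ∧ P c W (c u))) =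
        (W.filter (fun u => P c W (c u))).erase v := by
      ext u
      rw [mem_filter, mem_erase, mem_erase, mem_filter]
      constructor
      · rintro ⟨⟨h1, h2⟩, h3⟩
        refine ⟨h1, h2, ?_⟩
        rcases h3 with h3 | h3
        · rw [← h3]; exact hp
        · exact h3.2
      · rintro ⟨h1, h2, h3⟩
        exact ⟨⟨h1, h2⟩, Or.inr ⟨hp, h3⟩⟩
    have hm : v ∈ W.filter (fun u => P c W (c u)) := by simp [hv, hp]
    rw [h1]
    have h2 := card_erase_add_one hm
    have h3 := odd_vert (c := c) (W := W)
    rw [← Nat.not_even_iff_odd, ← Nat.not_even_iff_odd] at h3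
    have h4 : Even (W.filter (fun u => P c W (c u))).card := by tauto
    rw [← h2, Nat.even_add_one, Nat.not_even_iff_odd] at h4
    exact h4
  · have h1 : (W.erase v).filter (fun u => c v = c u ∨ (P c W (c v) ∧ P c W (c u))) =
        (W.filter (fun u => c u = c v)).erase v := by
      ext u
      rw [mem_filter, mem_erase, mem_erase, mem_filter]
      constructor
      · rintro ⟨⟨h1, h2⟩, h3⟩
        refine ⟨h1, h2, ?_⟩
        rcases h3 with h3 | h3
        · exact h3.symm
        · exact absurd h3.1 hp
      · rintro ⟨h1, h2, h3⟩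
        exact ⟨⟨h1, h2⟩, Or.inl h3.symm⟩
    have hm : v ∈ W.filter (fun u => c u = c v) := by simp [hv]
    rw [h1]
    have h2 := card_erase_add_one hm
    unfold P at hp
    rw [Nat.not_odd_iff_even, ← h2, Nat.even_add_one, Nat.not_even_iff_odd] at hp
    exact hp

end Pool.Agent.Q284.EulM
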