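import Mathlib

/-!
# Eulerian polynomials of digraphs: the first-vertex recursion
-/

namespace Pool.Agent.Q284.EulM

open Finset

variable {V : Type*} [Fintype V] [DecidableEq V] {R : Type*} [CommRing R]

open Classical in
/-- weight of having `a` before `x` -/
noncomputable def w (D : V → V → Prop) (t : R) (a x : V) : R := if D x a then t else 1

open Classical in
/-- weighted sum over the orderings of the vertex set `W` (with `n` elements) -/
noncomputable def EA (D : V → V → Prop) (t : R) (n : ℕ) (W : Finset V) : R :=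
  ∑ τ : Fin n → V, if Function.Injective τ ∧ ∀ i, τ i ∈ W then
    ∏ i, ∏ j ∈ Ioi i, w D t (τ i) (τ j) else 0

variable (D : V → V → Prop) (t : R)

theorem EA_zero : EA D t 0 ∅ = 1 := by
  unfold EA
  rw [Fintype.sum_eq_single (fun i => Fin.elim0 i)]
  · rw [if_pos]
    · simp
    · exact ⟨fun i => Fin.elim0 i, fun i => Fin.elim0 i⟩
  · intro τ h
    exfalso
    apply h
    funext i
    exact Fin.elim0 i

theorem EA_succ {n : ℕ} {W : Finset V} (hW : W.card = n + 1) :
    EA D t (n + 1) W = ∑ a ∈ W, (∏ x ∈ W.erase a, w D t a x) * EA D t n (W.erase a) := by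
  classical
  unfold EA
  rw [← (Fin.consEquiv (fun _ => V)).sum_comp]
  rw [Fintype.sum_prod_type]
  rw [← Finset.sum_filter_add_sum_filter_not univ (fun a => a ∈ W)]
  have h0 : ∑ a ∈ univ.filter (fun a => ¬ a ∈ W), ∑ y : Fin n → V,
      (if Function.Injective ((Fin.consEquiv fun _ => V) (a, y)) ∧
        ∀ i, (Fin.consEquiv fun _ => V) (a, y) i ∈ W then
        ∏ i, ∏ j ∈ Ioi i, w D t ((Fin.consEquiv fun _ => V) (a, y) i)
          ((Fin.consEquiv fun _ => V) (a, y) j) else 0) = 0 := by
    apply Finset.sum_eq_zero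
    intro a ha
    rw [mem_filter] at ha
    apply Finset.sum_eq_zero
    intro y _
    rw [if_neg]
    rintro ⟨_, h⟩
    exact ha.2 (h 0)
  rw [h0, add_zero]
  have h1 : univ.filter (fun a => a ∈ W) = W := by ext; simp
  rw [h1]
  apply Finset.sum_congr rfl
  intro a ha
  rw [Finset.mul_sum]
  apply Finset.sum_congr rfl
  intro y _
  have hcond : (Function.Injective ((Fin.consEquiv fun _ => V) (a, y)) ∧
        ∀ i, (Fin.consEquiv fun _ => V) (a, y) i ∈ W) ↔
      (Function.Injective y ∧ ∀ i, y i ∈ W.erase a) := by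
    simp only [Fin.consEquiv, Equiv.coe_fn_mk]
    rw [Fin.cons_injective_iff]
    constructor
    · rintro ⟨⟨h2, h3⟩, h4⟩
      refine ⟨h3, fun i => ?_⟩
      rw [mem_erase]
      refine ⟨?_, ?_⟩
      · intro h
        exact h2 ⟨i, h⟩
      · have := h4 i.succ
        rwa [Fin.cons_succ] at this
    · rintro ⟨h3, h4⟩
      refine ⟨⟨?_, h3⟩, ?_⟩
      · rintro ⟨i, h⟩
        have := h4 i
        rw [mem_erase] at this
        exact this.1 h
      · intro i
        refine Fin.cases ?_ ?_ i
        · rw [Fin.cons_zero]; exact ha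
        · intro i
          rw [Fin.cons_succ]
          exact mem_of_mem_erase (h4 i)
  by_cases hc : Function.Injective y ∧ ∀ i, y i ∈ W.erase a
  · rw [if_pos hc, if_pos (hcond.2 hc)]
    simp only [Fin.consEquiv, Equiv.coe_fn_mk]
    rw [Fin.prod_univ_succ, Fin.prod_Ioi_zero]
    simp only [Fin.cons_zero, Fin.cons_succ]
    congr 1
    · -- reindex
      have himg : univ.image y = W.erase a := by
        apply Finset.eq_of_subset_of_card_le
        · intro x hx
          rw [mem_image] at hx
          obtain ⟨i, _, rfl⟩ := hx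
          exact hc.2 i
        · rw [card_image_of_injective _ hc.1, card_erase_of_mem ha, hW]
          simp
      rw [← himg, prod_image (fun i _ j _ h => hc.1 h)]
    · apply Finset.prod_congr rfl
      intro i _
      rw [Fin.prod_Ioi_succ]
      simp only [Fin.cons_succ]
  · rw [if_neg hc, if_neg (fun h => hc (hcond.1 h)), mul_zero]

/-- relation with permutations -/
theorem EA_perm {n : ℕ} (D : Fin n → Fin n → Prop) [DecidableRel D] (t : R) :
    ∑ σ : Equiv.Perm (Fin n),
      t ^ (univ.filter (fun p : Fin n × Fin n => D p.1 p.2 ∧ σ p.2 < σ p.1)).card =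
    EA D t n univ := by
  classical
  unfold EA
  rw [← Equiv.sum_comp (Equiv.inv (Equiv.Perm (Fin n)))]
  rw [← Finset.sum_filter]
  refine Finset.sum_bij (fun (σ : Equiv.Perm (Fin n)) _ => (σ : Fin n → Fin n)) ?_ ?_ ?_ ?_
  · intro σ _
    rw [mem_filter]
    exact ⟨mem_univ _, σ.injective, fun i => mem_univ _⟩
  · intro σ _ σ' _ h
    exact DFunLike.coe_injective h
  · intro τ hτ
    rw [mem_filter] at hτ
    exact ⟨Equiv.ofBijective τ (Finite.injective_iff_bijective.1 hτ.2.1), mem_univ _, rfl⟩
  · intro σ _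
    simp only [Equiv.inv_apply]
    rw [Finset.card_filter, ← Finset.prod_pow_eq_pow_sum]
    rw [← Equiv.prod_comp (Equiv.prodCongr σ σ), Fintype.prod_prod_type, Finset.prod_comm]
    apply Finset.prod_congr rfl
    intro i _
    rw [← Finset.prod_subset (Finset.subset_univ (Ioi i))]
    · apply Finset.prod_congr rfl
      intro j hj
      rw [mem_Ioi] at hj
      unfold w
      have hinv : ∀ k, σ⁻¹ (σ k) = k := fun k => by simp
      simp only [Equiv.prodCongr_apply, Prod.map_apply, hinv]
      by_cases hD : D (σ j) (σ i)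
      · simp [hD, hj]
      · simp [hD]
    · intro j _ hj
      rw [mem_Ioi] at hj
      have hinv : ∀ k, σ⁻¹ (σ k) = k := fun k => by simp
      simp only [Equiv.prodCongr_apply, Prod.map_apply, hinv]
      simp [hj]

theorem map_EA {S : Type*} [CommRing S] (f : R →+* S) (n : ℕ) (W : Finset V) :
    f (EA D t n W) = EA D (f t) n W := by
  unfold EA
  rw [map_sum]
  apply Finset.sum_congr rfl
  intro τ _
  split_ifs with h
  · rw [map_prod]
    apply Finset.prod_congr rfl
    intro i _
    rw [map_prod]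
    apply Finset.prod_congr rfl
    intro j _
    unfold w
    split_ifs
    · rfl
    · exact map_one f
  · exact map_zero f

/-- two steps of the recursion -/
theorem EA_succ2 {n : ℕ} {W : Finset V} (hW : W.card = n + 2) :
    EA D t (n + 2) W = ∑ a ∈ W, ∑ b ∈ W.erase a, w D t a b *
      (∏ x ∈ (W.erase a).erase b, w D t a x * w D t b x) *
      EA D t n ((W.erase a).erase b) := by
  rw [EA_succ D t hW]
  apply Finset.sum_congr rfl
  intro a ha
  rw [EA_succ D t (by rw [card_erase_of_mem ha, hW]; rfl), Finset.mul_sum]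
  apply Finset.sum_congr rfl
  intro b hb
  rw [← Finset.mul_prod_erase (W.erase a) _ hb, Finset.prod_mul_distrib]
  ring

omit [Fintype V] in
theorem sum_erase_comm {M : Type*} [AddCommMonoid M] (W : Finset V) (f : V → V → M) :
    ∑ a ∈ W, ∑ b ∈ W.erase a, f a b = ∑ a ∈ W, ∑ b ∈ W.erase a, f b a := by
  rw [Finset.sum_comm' (t' := W) (s' := fun b => W.erase b)]
  intro a b
  simp only [mem_erase]
  constructor
  · rintro ⟨h1, h2, h3⟩; exact ⟨⟨Ne.symm h2, h1⟩, h3⟩
  · rintro ⟨⟨h1, h2⟩, h3⟩; exact ⟨h2, Ne.symm h1, h3⟩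

/-- symmetric form -/
theorem EA_succ2' {n : ℕ} {W : Finset V} (hW : W.card = n + 2) :
    2 * EA D t (n + 2) W = ∑ a ∈ W, ∑ b ∈ W.erase a, (w D t a b + w D t b a) *
      (∏ x ∈ (W.erase a).erase b, w D t a x * w D t b x) *
      EA D t n ((W.erase a).erase b) := by
  rw [two_mul]
  conv_lhs => rw [EA_succ2 D t hW]
  conv_lhs => rhs; rw [sum_erase_comm]
  rw [← Finset.sum_add_distrib]
  apply Finset.sum_congr rfl
  intro a ha
  rw [← Finset.sum_add_distrib]
  apply Finset.sum_congr rfl
  intro b hb
  rw [Finset.erase_right_comm (a := b) (b := a)]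
  rw [Finset.prod_congr rfl (fun x _ => mul_comm (w D t b x) (w D t a x))]
  ring

end Pool.Agent.Q284.EulM
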